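import Pool.Agent.H65.CRZ.TN
import Pool.Agent.H86.CV.DV
import Pool.Agent.H86.CV.GU

/-!
# EA: the asymptotic formula for `Eb`
-/

set_option autoImplicit false

open NumberField Filter Topology

namespace Pool.Agent.H6.CRZ

open Pool.Agent.H65.CRZ Pool.Agent.H37.CV Pool.Agent.H28.RC Pool.Agent.H25.HK

section Comb

variable {α : Type} {N : α → ℝ}

theorem one_le_nS (hN : ∀ P, 2 ≤ N P) (S : Finset α) : 1 ≤ nS N S := by
  classical
  unfold nS
  induction S using Finset.induction_on with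
  | empty => simp
  | insert a s ha ih =>
    rw [Finset.prod_insert ha]
    have := hN a
    nlinarith

theorem fS_pos' (hN : ∀ P, 2 ≤ N P) (S : Finset α) : 0 < fS N S :=
  Finset.prod_pos fun P _ => by linarith [hN P]

theorem mem_DS {A : Finset α} {x : ℝ} {S : Finset α} : S ∈ DS N A x ↔ S ⊆ A ∧ nS N S ≤ x := by
  classical
  unfold DS
  rw [Finset.mem_filter, Finset.mem_powerset]

theorem GS_nn (hN : ∀ P, 2 ≤ N P) (A : Finset α) (x : ℝ) : 0 ≤ GS N A x :=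
  Finset.sum_nonneg fun S _ => (inv_pos.2 (fS_pos' hN S)).le

/-- swapping the sum -/
theorem ea_swap (hN : ∀ P, 2 ≤ N P) (A : Finset α) (y : ℝ) (c : α → ℝ) (hc : ∀ P, 0 ≤ c P) :
    ∑ S ∈ DS N A y, (fS N S)⁻¹ * ∑ P ∈ S, c P ≤ GS N A y * ∑ P ∈ A, c P / (N P - 1) := by
  classical
  have h1 : ∀ S ∈ DS N A y, (fS N S)⁻¹ * ∑ P ∈ S, c P =
      ∑ P ∈ A, if P ∈ S then (fS N S)⁻¹ * c P else 0 := by
    intro S hS
    rw [Finset.mul_sum, ← Finset.sum_filter]
    refine Finset.sum_congr ?_ fun _ _ => rfl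
    ext P
    rw [Finset.mem_filter]
    exact ⟨fun h => ⟨(mem_DS.1 hS).1 h, h⟩, fun h => h.2⟩
  rw [Finset.sum_congr rfl h1, Finset.sum_comm, Finset.mul_sum]
  refine Finset.sum_le_sum fun P _ => ?_
  rw [← Finset.sum_filter, ← Finset.sum_mul]
  have hP : 0 < N P - 1 := by linarith [hN P]
  have h2 : ∑ S ∈ (DS N A y).filter (fun S => P ∈ S), (fS N S)⁻¹ ≤ GS N A y / (N P - 1) := by
    have h3 : ∀ S ∈ (DS N A y).filter (fun S => P ∈ S), (fS N S)⁻¹ =
        (fS N (S.erase P))⁻¹ / (N P - 1) := by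
      intro S hS
      have h4 : fS N S = (N P - 1) * fS N (S.erase P) := by
        unfold fS
        rw [Finset.mul_prod_erase S (fun Q => N Q - 1) (Finset.mem_filter.1 hS).2]
      rw [h4, mul_inv]
      field_simp
    rw [Finset.sum_congr rfl h3, ← Finset.sum_div]
    refine div_le_div_of_nonneg_right ?_ hP.le
    have h7 : ∑ T ∈ ((DS N A y).filter (fun S => P ∈ S)).image (fun S => S.erase P),
        (fS N T)⁻¹ = ∑ S ∈ (DS N A y).filter (fun S => P ∈ S), (fS N (S.erase P))⁻¹ := by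
      refine Finset.sum_image ?_
      intro S hS T hT hST
      have hS2 := (Finset.mem_filter.1 (Finset.mem_coe.1 hS)).2
      have hT2 := (Finset.mem_filter.1 (Finset.mem_coe.1 hT)).2
      rw [← Finset.insert_erase hS2, ← Finset.insert_erase hT2]
      simp only at hST
      rw [hST]
    rw [← h7]
    refine Finset.sum_le_sum_of_subset_of_nonneg ?_ fun S _ _ => (inv_pos.2 (fS_pos' hN S)).le
    intro T hT
    obtain ⟨S, hS, rfl⟩ := Finset.mem_image.1 hT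
    obtain ⟨hS1, hS2⟩ := Finset.mem_filter.1 hS
    obtain ⟨hS3, hS4⟩ := mem_DS.1 hS1
    refine mem_DS.2 ⟨(Finset.erase_subset _ _).trans hS3, ?_⟩
    have h4 : nS N S = N P * nS N (S.erase P) := by
      unfold nS
      rw [Finset.mul_prod_erase S N hS2]
    have h5 := one_le_nS hN (S.erase P)
    have h6 := hN P
    nlinarith
  calc (∑ S ∈ (DS N A y).filter (fun S => P ∈ S), (fS N S)⁻¹) * c P
      ≤ GS N A y / (N P - 1) * c P := mul_le_mul_of_nonneg_right h2 (hc P)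
    _ = GS N A y * (c P / (N P - 1)) := by ring

end Comb

/-- telescoping -/
theorem ea_tele {σ : Type} [DecidableEq σ] (D : ℕ → Finset σ) (hD : ∀ i, D i ⊆ D (i + 1))
    (w : σ → ℝ) (hw : ∀ S, 0 ≤ w S) (g : σ → ℂ) (a : ℕ → ℂ) (δ : ℝ)
    (h0 : ∀ S ∈ D 0, ‖g S - a 0‖ ≤ δ) : ∀ j : ℕ,
    (∀ i < j, ∀ S ∈ D (i + 1), S ∉ D i → ‖g S - a (i + 1)‖ ≤ δ) →
    ‖∑ S ∈ D j, ((w S : ℝ) : ℂ) * g S - (∑ i ∈ Finset.range j,
      ((∑ S ∈ D (i + 1), w S - ∑ S ∈ D i, w S : ℝ) : ℂ) * a (i + 1) +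
        ((∑ S ∈ D 0, w S : ℝ) : ℂ) * a 0)‖ ≤ δ * ∑ S ∈ D j, w S := by
  have key : ∀ (X : Finset σ) (c : ℂ), (∀ S ∈ X, ‖g S - c‖ ≤ δ) →
      ‖∑ S ∈ X, ((w S : ℝ) : ℂ) * g S - ((∑ S ∈ X, w S : ℝ) : ℂ) * c‖ ≤ δ * ∑ S ∈ X, w S := by
    intro X c hX
    rw [Complex.ofReal_sum, Finset.sum_mul, ← Finset.sum_sub_distrib, Finset.mul_sum]
    refine (norm_sum_le _ _).trans (Finset.sum_le_sum fun S hS => ?_)
    rw [← mul_sub, norm_mul, Complex.norm_real, Real.norm_eq_abs, abs_of_nonneg (hw S), mul_comm]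
    exact mul_le_mul_of_nonneg_right (hX S hS) (hw S)
  intro j
  induction j with
  | zero =>
    intro _
    rw [Finset.range_zero, Finset.sum_empty, zero_add]
    exact key _ _ h0
  | succ j ih =>
    intro h
    have h1 := ih fun i hi => h i (by omega)
    have h2 := key (D (j + 1) \ D j) (a (j + 1)) fun S hS =>
      h j (by omega) S (Finset.mem_sdiff.1 hS).1 (Finset.mem_sdiff.1 hS).2
    have e1 : ∑ S ∈ D (j + 1), ((w S : ℝ) : ℂ) * g S =
        ∑ S ∈ D (j + 1) \ D j, ((w S : ℝ) : ℂ) * g S + ∑ S ∈ D j, ((w S : ℝ) : ℂ) * g S :=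
      (Finset.sum_sdiff (hD j)).symm
    have e2 : ∑ S ∈ D (j + 1), w S = ∑ S ∈ D (j + 1) \ D j, w S + ∑ S ∈ D j, w S :=
      (Finset.sum_sdiff (hD j)).symm
    have e3 : (∑ S ∈ D (j + 1), w S - ∑ S ∈ D j, w S : ℝ) = ∑ S ∈ D (j + 1) \ D j, w S := by
      rw [e2]
      ring
    rw [Finset.sum_range_succ, e3, e1]
    have e4 : δ * ∑ S ∈ D (j + 1), w S =
        δ * ∑ S ∈ D (j + 1) \ D j, w S + δ * ∑ S ∈ D j, w S := by
      rw [e2]
      ring
    rw [e4]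
    refine le_trans (le_of_eq ?_) ((norm_add_le _ _).trans (add_le_add h2 h1))
    congr 1
    ring

/-- the difference of two exponentials -/
theorem ea_exp (z w : ℂ) (B c : ℝ) (hw : ‖w‖ ≤ B) (hzw : ‖z - w‖ ≤ c) (hc : c ≤ B) :
    ‖Complex.exp z - Complex.exp w‖ ≤ Real.exp B ^ 2 * c := by
  have h1 : Complex.exp z - Complex.exp w = Complex.exp w * (Complex.exp (z - w) - 1) := by
    rw [mul_sub, ← Complex.exp_add, mul_one]
    congr 2
    ring
  have h2 := Complex.norm_exp_sub_sum_le_norm_mul_exp (z - w) 1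
  simp only [Finset.range_one, Finset.sum_singleton, pow_zero, Nat.factorial_zero, Nat.cast_one,
    div_one, pow_one] at h2
  have h3 : ‖Complex.exp w‖ ≤ Real.exp B := (Complex.norm_exp_le_exp_norm w).trans
    (Real.exp_le_exp.2 hw)
  have h4 : ‖Complex.exp (z - w) - 1‖ ≤ c * Real.exp B :=
    h2.trans (mul_le_mul hzw (Real.exp_le_exp.2 (hzw.trans hc)) (Real.exp_pos _).le
      ((norm_nonneg _).trans hzw))
  rw [h1, norm_mul]
  calc ‖Complex.exp w‖ * ‖Complex.exp (z - w) - 1‖ ≤ Real.exp B * (c * Real.exp B) :=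
        mul_le_mul h3 h4 (norm_nonneg _) (Real.exp_pos _).le
    _ = Real.exp B ^ 2 * c := by ring

theorem ea_cpow {u : ℝ} (hu : 0 < u) (β : ℂ) :
    ((u : ℝ) : ℂ) ^ (-β) = Complex.exp (-β * ((Real.log u : ℝ) : ℂ)) := by
  rw [Complex.cpow_def_of_ne_zero (Complex.ofReal_ne_zero.2 hu.ne'), Complex.ofReal_log hu.le]
  congr 1
  ring

/-- one term -/
theorem ea_term {α : Type} {N : α → ℝ} (hN : ∀ P, 2 ≤ N P) (A : Finset α) (β : ℂ)
    (l C C₀ : ℝ) (J : ℕ) (hl : 0 < l) (hJ : 1 ≤ J) (hC : 1 ≤ C) (hC₀ : 0 < C₀)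
    (hβ : ‖β‖ ≤ C₀ / l)
    (hE1 : ∀ x ≤ Real.exp l, ‖Eb N A ∅ x β‖ ≤ C)
    (hE3 : ∀ x y, x ≤ Real.exp l → y ≤ x → 1 ≤ y →
      ‖Eb N A ∅ x β - Eb N A ∅ y β‖ ≤ C * ‖β‖ * (1 + Real.log (x / y)))
    (i j : ℕ) (hij : i ≤ j) (hj : j ≤ J) (S : Finset α) (h1 : Real.log (nS N S) ≤ i * l / J)
    (h2 : i * l / J - l / J ≤ Real.log (nS N S)) :
    ‖((nS N S : ℝ) : ℂ) ^ (-β) * Eb N A ∅ (Real.exp (j * l / J) / nS N S) β -
      Complex.exp (-(β * l) * (i : ℂ) / J) *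
        Eb N A ∅ (Real.exp (((j - i : ℕ) : ℝ) * l / J)) β‖ ≤
      Real.exp C₀ ^ 2 * C₀ * C / J + Real.exp C₀ * C * C₀ * (1 / l + 1 / J) := by
  have hJ0 : (0 : ℝ) < J := by exact_mod_cast hJ
  have hn1 := one_le_nS hN S
  have hn0 : 0 < nS N S := by linarith
  set u := Real.log (nS N S) with hu
  have hu0 : 0 ≤ u := Real.log_nonneg hn1
  have hijr : (i : ℝ) ≤ j := by exact_mod_cast hij
  have hjr : (j : ℝ) ≤ J := by exact_mod_cast hj
  have hsub : ((j - i : ℕ) : ℝ) = j - i := by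
    rw [Nat.cast_sub hij]
  have hnexp : nS N S = Real.exp u := (Real.exp_log hn0).symm
  have hquot : Real.exp (j * l / J) / nS N S = Real.exp (j * l / J - u) := by
    rw [hnexp, ← Real.exp_sub]
  rw [ea_cpow hn0, ← hu, hquot, hsub]
  have hx1 : Real.exp (j * l / J - u) ≤ Real.exp l := by
    refine Real.exp_le_exp.2 ?_
    have : j * l / J ≤ l := by
      rw [div_le_iff₀ hJ0]
      nlinarith
    linarith
  have hyx : Real.exp ((j - i) * l / J) ≤ Real.exp (j * l / J - u) := by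
    refine Real.exp_le_exp.2 ?_
    have : (j - i : ℝ) * l / J = j * l / J - i * l / J := by ring
    linarith
  have hy1 : 1 ≤ Real.exp ((j - i) * l / J) := by
    refine Real.one_le_exp ?_
    have : (0 : ℝ) ≤ j - i := by linarith
    positivity
  have hβ0 : 0 ≤ ‖β‖ := norm_nonneg β
  -- the exponentials
  have hz : ‖-β * ((u : ℝ) : ℂ) - -(β * l) * (i : ℂ) / J‖ ≤ C₀ / J := by
    have e1 : -β * ((u : ℝ) : ℂ) - -(β * l) * (i : ℂ) / J =
        β * (((i * l / J - u : ℝ)) : ℂ) := by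
      push_cast
      ring
    rw [e1, norm_mul, Complex.norm_real, Real.norm_eq_abs, abs_of_nonneg (by linarith)]
    calc ‖β‖ * (i * l / J - u) ≤ C₀ / l * (l / J) :=
          mul_le_mul hβ (by linarith) (by linarith) (by positivity)
      _ = C₀ / J := by field_simp
  have hw : ‖-(β * l) * (i : ℂ) / J‖ ≤ C₀ := by
    rw [norm_div, norm_mul, norm_neg, norm_mul, Complex.norm_real, Complex.norm_natCast,
      Complex.norm_natCast, Real.norm_eq_abs, abs_of_pos hl, div_le_iff₀ hJ0]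
    have h3 : ‖β‖ * l ≤ C₀ := by
      rw [le_div_iff₀ hl] at hβ
      exact hβ
    have h4 : (i : ℝ) ≤ J := by linarith
    exact mul_le_mul h3 h4 (Nat.cast_nonneg _) hC₀.le
  have hcB : C₀ / J ≤ C₀ := by
    rw [div_le_iff₀ hJ0]
    have : (1 : ℝ) ≤ J := by exact_mod_cast hJ
    nlinarith
  have h3 := ea_exp _ _ C₀ (C₀ / J) hw hz hcB
  have h4 := hE1 _ hx1
  have h5 := hE3 _ _ hx1 hyx hy1
  have h6 : Real.log (Real.exp (j * l / J - u) / Real.exp ((j - i) * l / J)) ≤ l / J := by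
    rw [← Real.exp_sub, Real.log_exp]
    have : (j - i : ℝ) * l / J = j * l / J - i * l / J := by ring
    linarith
  have h7 : ‖Complex.exp (-(β * l) * (i : ℂ) / J)‖ ≤ Real.exp C₀ :=
    (Complex.norm_exp_le_exp_norm _).trans (Real.exp_le_exp.2 hw)
  have h8 : ‖Eb N A ∅ (Real.exp (j * l / J - u)) β - Eb N A ∅ (Real.exp ((j - i) * l / J)) β‖ ≤
      C * C₀ * (1 / l + 1 / J) := by
    refine h5.trans ?_
    calc C * ‖β‖ * (1 + Real.log (Real.exp (j * l / J - u) / Real.exp ((j - i) * l / J)))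
        ≤ C * ‖β‖ * (1 + l / J) := by
          refine mul_le_mul_of_nonneg_left (by linarith) (by positivity)
      _ ≤ C * (C₀ / l) * (1 + l / J) := by
          refine mul_le_mul_of_nonneg_right ?_ (by positivity)
          exact mul_le_mul_of_nonneg_left hβ (by linarith)
      _ = C * C₀ * (1 / l + 1 / J) := by field_simp
  have e2 : Complex.exp (-β * ((u : ℝ) : ℂ)) * Eb N A ∅ (Real.exp (j * l / J - u)) β -
      Complex.exp (-(β * l) * (i : ℂ) / J) * Eb N A ∅ (Real.exp ((j - i) * l / J)) β =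
      (Complex.exp (-β * ((u : ℝ) : ℂ)) - Complex.exp (-(β * l) * (i : ℂ) / J)) *
        Eb N A ∅ (Real.exp (j * l / J - u)) β +
      Complex.exp (-(β * l) * (i : ℂ) / J) * (Eb N A ∅ (Real.exp (j * l / J - u)) β -
        Eb N A ∅ (Real.exp ((j - i) * l / J)) β) := by ring
  rw [e2]
  refine (norm_add_le _ _).trans (add_le_add ?_ ?_)
  · rw [norm_mul]
    calc _ ≤ Real.exp C₀ ^ 2 * (C₀ / J) * C := mul_le_mul h3 h4 (norm_nonneg _) (by positivity)
      _ = _ := by ring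
  · rw [norm_mul]
    calc _ ≤ Real.exp C₀ * (C * C₀ * (1 / l + 1 / J)) :=
          mul_le_mul h7 h8 (norm_nonneg _) (Real.exp_pos _).le
      _ = _ := by ring

/-- the constant of the discrete convolution equation -/
noncomputable def KK (ρ C C₀ U : ℝ) : ℝ :=
  (1 + 3 * Real.exp C₀ * C + (ρ + 1) * (Real.exp C₀ ^ 2 * C₀ * C + Real.exp C₀ * C * C₀) +
    (ρ + 1) * (Real.exp C₀ * C * C₀) * (1 + U)) / ρ

theorem ea_conv {α : Type} {N : α → ℝ} (hN : ∀ P, 2 ≤ N P) (A : Finset α) (β : ℂ)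
    (l ρ η C C₀ U : ℝ) (J : ℕ) (hl : 0 < l) (hJ : 1 ≤ J) (hρ : 0 < ρ) (hη : 0 ≤ η) (hη1 : η ≤ 1)
    (hC : 1 ≤ C) (hC₀ : 0 < C₀) (hU : 0 ≤ U) (hβ : ‖β‖ ≤ C₀ / l)
    (hE1 : ∀ x ≤ Real.exp l, ∀ R : Finset α, ‖Eb N A R x β‖ ≤ C ∧
      ‖Eb N A R x β - Eb N A ∅ x β‖ ≤ C * ‖β‖ * ∑ P ∈ R, Real.log (N P) / (N P - 1))
    (hE3 : ∀ x y, x ≤ Real.exp l → y ≤ x → 1 ≤ y →
      ‖Eb N A ∅ x β - Eb N A ∅ y β‖ ≤ C * ‖β‖ * (1 + Real.log (x / y)))
    (hEI : ∀ x, ∑ S ∈ DS N A x, ((nS N S : ℝ) : ℂ) ^ (-β) / ((fS N S : ℝ) : ℂ) *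
      Eb N A S (x / nS N S) β = (GS N A x : ℂ))
    (hG : ∀ x, 1 ≤ x → x ≤ Real.exp l → |GS N A x - ρ * Real.log x| ≤ η * l)
    (hUA : ∑ P ∈ A, Real.log (N P) / (N P - 1) ^ 2 ≤ U) (j : ℕ) (hj : j ≤ J) :
    ‖(∑ i ∈ Finset.Icc 1 j, Complex.exp (-(β * l) * (i : ℂ) / J) *
      Eb N A ∅ (Real.exp (((j - i : ℕ) : ℝ) * l / J)) β) - j‖ ≤
      KK ρ C C₀ U * (1 + (J * η + 1 / l) * J) := by
  classical
  have hJ0 : (0 : ℝ) < J := by exact_mod_cast hJ
  have hJ1 : (1 : ℝ) ≤ J := by exact_mod_cast hJ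
  have hjr : (j : ℝ) ≤ J := by exact_mod_cast hj
  have hj0 : (0 : ℝ) ≤ j := Nat.cast_nonneg j
  set K := Real.exp C₀ with hK
  have hK0 : 0 < K := Real.exp_pos _
  have hβ0 : 0 ≤ ‖β‖ := norm_nonneg β
  have hβl : ‖β‖ * l ≤ C₀ := by
    rw [le_div_iff₀ hl] at hβ
    exact hβ
  have hyM : ∀ i : ℕ, i ≤ J → Real.exp (i * l / J) ≤ Real.exp l := by
    intro i hi
    have : (i : ℝ) ≤ J := by exact_mod_cast hi
    refine Real.exp_le_exp.2 ?_
    rw [div_le_iff₀ hJ0]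
    nlinarith
  have hy1 : ∀ i : ℕ, 1 ≤ Real.exp (i * l / J) := fun i => Real.one_le_exp (by positivity)
  -- the sums `G`
  set G : ℕ → ℝ := fun i => GS N A (Real.exp (i * l / J)) with hGdef
  have hGi : ∀ i : ℕ, i ≤ J → |G i - ρ * (i * l / J)| ≤ η * l := by
    intro i hi
    have := hG _ (hy1 i) (hyM i hi)
    rwa [Real.log_exp] at this
  have hGj : 0 ≤ G j := GS_nn hN _ _
  have hGj2 : G j ≤ (ρ + 1) * l := by
    have h1 := (abs_le.1 (hGi j hj)).2
    have h2 : ρ * (j * l / J) ≤ ρ * l := by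
      refine mul_le_mul_of_nonneg_left ?_ hρ.le
      rw [div_le_iff₀ hJ0]
      nlinarith
    nlinarith
  -- the first replacement
  set g : Finset α → ℂ := fun S =>
    ((nS N S : ℝ) : ℂ) ^ (-β) * Eb N A ∅ (Real.exp (j * l / J) / nS N S) β with hg
  have s1 : ‖(G j : ℂ) - ∑ S ∈ DS N A (Real.exp (j * l / J)),
      (((fS N S)⁻¹ : ℝ) : ℂ) * g S‖ ≤ K * C * ‖β‖ * (G j * U) := by
    have h1 : (G j : ℂ) = ∑ S ∈ DS N A (Real.exp (j * l / J)), ((nS N S : ℝ) : ℂ) ^ (-β) /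
        ((fS N S : ℝ) : ℂ) * Eb N A S (Real.exp (j * l / J) / nS N S) β := (hEI _).symm
    rw [h1, ← Finset.sum_sub_distrib]
    have h2 : ∀ S ∈ DS N A (Real.exp (j * l / J)),
        ‖((nS N S : ℝ) : ℂ) ^ (-β) / ((fS N S : ℝ) : ℂ) *
          Eb N A S (Real.exp (j * l / J) / nS N S) β - (((fS N S)⁻¹ : ℝ) : ℂ) * g S‖ ≤
        K * C * ‖β‖ * ((fS N S)⁻¹ * ∑ P ∈ S, Real.log (N P) / (N P - 1)) := by
      intro S hS
      obtain ⟨_, hS2⟩ := mem_DS.1 hS
      have hn1 := one_le_nS hN S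
      have hn0 : 0 < nS N S := by linarith
      have hf := fS_pos' hN S
      have e1 : ((nS N S : ℝ) : ℂ) ^ (-β) / ((fS N S : ℝ) : ℂ) *
          Eb N A S (Real.exp (j * l / J) / nS N S) β - (((fS N S)⁻¹ : ℝ) : ℂ) * g S =
          (((fS N S)⁻¹ : ℝ) : ℂ) * (((nS N S : ℝ) : ℂ) ^ (-β) *
            (Eb N A S (Real.exp (j * l / J) / nS N S) β -
              Eb N A ∅ (Real.exp (j * l / J) / nS N S) β)) := by
        rw [hg]
        push_cast
        ring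
      have hx : Real.exp (j * l / J) / nS N S ≤ Real.exp l :=
        (div_le_self (Real.exp_pos _).le hn1).trans (hyM j hj)
      have h3 := (hE1 _ hx S).2
      have h4 : ‖((nS N S : ℝ) : ℂ) ^ (-β)‖ ≤ K := by
        rw [ea_cpow hn0]
        refine (Complex.norm_exp_le_exp_norm _).trans (Real.exp_le_exp.2 ?_)
        rw [norm_mul, norm_neg, Complex.norm_real, Real.norm_eq_abs,
          abs_of_nonneg (Real.log_nonneg hn1)]
        have h5 : Real.log (nS N S) ≤ l := by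
          have := Real.log_le_log hn0 (hS2.trans (hyM j hj))
          rwa [Real.log_exp] at this
        exact (mul_le_mul_of_nonneg_left h5 hβ0).trans hβl
      rw [e1, norm_mul, norm_mul, Complex.norm_real, Real.norm_eq_abs,
        abs_of_pos (inv_pos.2 hf)]
      calc (fS N S)⁻¹ * (‖((nS N S : ℝ) : ℂ) ^ (-β)‖ * _)
          ≤ (fS N S)⁻¹ * (K * (C * ‖β‖ * ∑ P ∈ S, Real.log (N P) / (N P - 1))) :=
            mul_le_mul_of_nonneg_left (mul_le_mul h4 h3 (norm_nonneg _) hK0.le)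
              (inv_pos.2 hf).le
        _ = _ := by ring
    refine (norm_sum_le_of_le _ h2).trans ?_
    rw [← Finset.mul_sum]
    refine mul_le_mul_of_nonneg_left ?_ (by positivity)
    refine (ea_swap hN A _ _ fun P => ?_).trans ?_
    · have := hN P
      exact div_nonneg (Real.log_nonneg (by linarith)) (by linarith)
    · refine mul_le_mul_of_nonneg_left (le_trans (le_of_eq ?_) hUA) hGj
      refine Finset.sum_congr rfl fun P _ => ?_
      rw [div_div, pow_two]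
  -- the blocks
  set a : ℕ → ℂ := fun i => Complex.exp (-(β * l) * (i : ℂ) / J) *
    Eb N A ∅ (Real.exp (((j - i : ℕ) : ℝ) * l / J)) β with ha
  set δ := K ^ 2 * C₀ * C / J + K * C * C₀ * (1 / l + 1 / J) with hδ
  have hδ0 : 0 ≤ δ := by positivity
  have hEx : ∀ x ≤ Real.exp l, ‖Eb N A ∅ x β‖ ≤ C := fun x hx => (hE1 x hx ∅).1
  have s2 := ea_tele (fun i : ℕ => DS N A (Real.exp (i * l / J))) (fun i S hS => by
      obtain ⟨h1, h2⟩ := mem_DS.1 hS
      refine mem_DS.2 ⟨h1, h2.trans (Real.exp_le_exp.2 ?_)⟩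
      refine div_le_div_of_nonneg_right ?_ hJ0.le
      push_cast
      nlinarith) (fun S => (fS N S)⁻¹) (fun S => (inv_pos.2 (fS_pos' hN S)).le) g a δ
    (fun S hS => by
      obtain ⟨_, h2⟩ := mem_DS.1 hS
      have hn1 := one_le_nS hN S
      refine ea_term hN A β l C C₀ J hl hJ hC hC₀ hβ hEx hE3 0 j (Nat.zero_le _) hj S ?_ ?_
      · have := Real.log_le_log (by linarith) h2
        rwa [Real.log_exp] at this
      · have := Real.log_nonneg hn1
        have : 0 < l / J := by positivity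
        simp only [Nat.cast_zero, zero_mul, zero_div]
        linarith) j (fun i hi S hS hS' => by
      obtain ⟨h1, h2⟩ := mem_DS.1 hS
      have hn1 := one_le_nS hN S
      refine ea_term hN A β l C C₀ J hl hJ hC hC₀ hβ hEx hE3 (i + 1) j hi hj S ?_ ?_
      · have := Real.log_le_log (by linarith) h2
        rwa [Real.log_exp] at this
      · have h3 : ¬ nS N S ≤ Real.exp (i * l / J) := fun h => hS' (mem_DS.2 ⟨h1, h⟩)
        have h4 := Real.log_le_log (Real.exp_pos _) (not_le.1 h3).le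
        rw [Real.log_exp] at h4
        push_cast
        have : ((i : ℝ) + 1) * l / J - l / J = i * l / J := by ring
        linarith)
  -- the weights of the blocks
  have hai : ∀ i : ℕ, i ≤ j → ‖a i‖ ≤ K * C := by
    intro i hi
    rw [ha]
    simp only [norm_mul]
    refine mul_le_mul ?_ (hEx _ (hyM _ (by omega))) (norm_nonneg _) hK0.le
    refine (Complex.norm_exp_le_exp_norm _).trans (Real.exp_le_exp.2 ?_)
    rw [norm_div, norm_mul, norm_neg, norm_mul, Complex.norm_real, Complex.norm_natCast,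
      Complex.norm_natCast, Real.norm_eq_abs, abs_of_pos hl, div_le_iff₀ hJ0]
    have h4 : (i : ℝ) ≤ J := by exact_mod_cast hi.trans hj
    exact mul_le_mul hβl h4 (Nat.cast_nonneg _) hC₀.le
  have s3 : ‖(∑ i ∈ Finset.range j, ((G (i + 1) - G i : ℝ) : ℂ) * a (i + 1) +
      ((G 0 : ℝ) : ℂ) * a 0) - ((ρ * l / J : ℝ) : ℂ) * ∑ i ∈ Finset.range j, a (i + 1)‖ ≤
      (2 * J + 1) * (η * l) * (K * C) := by
    have e1 : (∑ i ∈ Finset.range j, ((G (i + 1) - G i : ℝ) : ℂ) * a (i + 1) +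
        ((G 0 : ℝ) : ℂ) * a 0) - ((ρ * l / J : ℝ) : ℂ) * ∑ i ∈ Finset.range j, a (i + 1) =
        ∑ i ∈ Finset.range j, ((G (i + 1) - G i - ρ * l / J : ℝ) : ℂ) * a (i + 1) +
          ((G 0 : ℝ) : ℂ) * a 0 := by
      rw [Finset.mul_sum, add_sub_right_comm, ← Finset.sum_sub_distrib]
      congr 1
      refine Finset.sum_congr rfl fun i _ => ?_
      push_cast
      ring
    rw [e1]
    have h1 : ‖∑ i ∈ Finset.range j, ((G (i + 1) - G i - ρ * l / J : ℝ) : ℂ) * a (i + 1)‖ ≤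
        ∑ _i ∈ Finset.range j, 2 * (η * l) * (K * C) := by
      refine norm_sum_le_of_le _ fun i hi => ?_
      have hi' : i < j := Finset.mem_range.1 hi
      rw [norm_mul, Complex.norm_real, Real.norm_eq_abs]
      refine mul_le_mul ?_ (hai _ hi') (norm_nonneg _) (by positivity)
      have h2 := hGi (i + 1) (by omega)
      have h3 := hGi i (by omega)
      have h4 : G (i + 1) - G i - ρ * l / J = (G (i + 1) - ρ * ((i + 1 : ℕ) * l / J)) -
          (G i - ρ * (i * l / J)) := by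
        push_cast
        ring
      rw [h4]
      refine (abs_sub _ _).trans ?_
      linarith
    have h2 : ‖((G 0 : ℝ) : ℂ) * a 0‖ ≤ (η * l) * (K * C) := by
      rw [norm_mul, Complex.norm_real, Real.norm_eq_abs]
      refine mul_le_mul ?_ (hai 0 (Nat.zero_le _)) (norm_nonneg _) (by positivity)
      have := hGi 0 (Nat.zero_le _)
      simpa using this
    refine (norm_add_le _ _).trans ((add_le_add h1 h2).trans ?_)
    rw [Finset.sum_const, Finset.card_range, nsmul_eq_mul]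
    have h5 : (j : ℝ) * (2 * (η * l) * (K * C)) ≤ J * (2 * (η * l) * (K * C)) :=
      mul_le_mul_of_nonneg_right hjr (by positivity)
    nlinarith
  -- assembly
  have e0 : ∑ i ∈ Finset.Icc 1 j, a i = ∑ i ∈ Finset.range j, a (i + 1) := by
    rw [Finset.range_eq_Ico, Finset.sum_Ico_add' a 0 j 1]
    rfl
  have hρl : 0 < ρ * l / J := by positivity
  have s4 : ‖((ρ * l / J : ℝ) : ℂ) * (∑ i ∈ Finset.Icc 1 j, a i - j)‖ ≤
      (2 * J + 1) * (η * l) * (K * C) + δ * G j + K * C * ‖β‖ * (G j * U) + η * l := by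
    have h1 := hGi j hj
    have h2 : ‖(G j : ℂ) - ((ρ * l / J : ℝ) : ℂ) * j‖ ≤ η * l := by
      have e1 : (G j : ℂ) - ((ρ * l / J : ℝ) : ℂ) * j = ((G j - ρ * (j * l / J) : ℝ) : ℂ) := by
        push_cast
        ring
      rw [e1, Complex.norm_real, Real.norm_eq_abs]
      exact h1
    rw [e0, mul_sub]
    have e2 : ((ρ * l / J : ℝ) : ℂ) * ∑ i ∈ Finset.range j, a (i + 1) -
        ((ρ * l / J : ℝ) : ℂ) * j =
        -((∑ i ∈ Finset.range j, ((G (i + 1) - G i : ℝ) : ℂ) * a (i + 1) +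
          ((G 0 : ℝ) : ℂ) * a 0) - ((ρ * l / J : ℝ) : ℂ) * ∑ i ∈ Finset.range j, a (i + 1)) -
        (∑ S ∈ DS N A (Real.exp (j * l / J)), (((fS N S)⁻¹ : ℝ) : ℂ) * g S -
          (∑ i ∈ Finset.range j, ((G (i + 1) - G i : ℝ) : ℂ) * a (i + 1) +
          ((G 0 : ℝ) : ℂ) * a 0)) -
        ((G j : ℂ) - ∑ S ∈ DS N A (Real.exp (j * l / J)), (((fS N S)⁻¹ : ℝ) : ℂ) * g S) +
        ((G j : ℂ) - ((ρ * l / J : ℝ) : ℂ) * j) := by ring
    rw [e2]
    refine (norm_add_le _ _).trans (add_le_add ((norm_sub_le _ _).trans (add_le_add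
      ((norm_sub_le _ _).trans (add_le_add ?_ s2)) s1)) h2)
    rw [norm_neg]
    exact s3
  rw [norm_mul, Complex.norm_real, Real.norm_eq_abs, abs_of_pos hρl] at s4
  have s5 : ‖∑ i ∈ Finset.Icc 1 j, a i - j‖ ≤ ((2 * J + 1) * (η * l) * (K * C) + δ * G j +
      K * C * ‖β‖ * (G j * U) + η * l) / (ρ * l / J) := by
    rw [le_div_iff₀ hρl, mul_comm]
    exact s4
  refine s5.trans ?_
  have b1 : δ * G j ≤ δ * ((ρ + 1) * l) := mul_le_mul_of_nonneg_left hGj2 hδ0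
  have b2 : K * C * ‖β‖ * (G j * U) ≤ K * C * (C₀ / l) * ((ρ + 1) * l * U) := by
    refine mul_le_mul (mul_le_mul_of_nonneg_left hβ (by positivity)) ?_ (by positivity)
      (by positivity)
    exact mul_le_mul_of_nonneg_right hGj2 hU
  have b3 : K * C * (C₀ / l) * ((ρ + 1) * l * U) = K * C * C₀ * (ρ + 1) * U := by
    field_simp
  have b4 : δ * ((ρ + 1) * l) = (ρ + 1) * (K ^ 2 * C₀ * C + K * C * C₀) * (l / J) +
      (ρ + 1) * (K * C * C₀) := by
    rw [hδ]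
    field_simp
    ring
  have b5 : (2 * J + 1) * (η * l) * (K * C) ≤ 3 * J * (η * l) * (K * C) := by
    refine mul_le_mul_of_nonneg_right (mul_le_mul_of_nonneg_right (by linarith) (by positivity))
      (by positivity)
  rw [div_le_iff₀ hρl, KK, ← hK]
  have e3 : (1 + 3 * K * C + (ρ + 1) * (K ^ 2 * C₀ * C + K * C * C₀) +
      (ρ + 1) * (K * C * C₀) * (1 + U)) / ρ * (1 + (J * η + 1 / l) * J) * (ρ * l / J) =
      (1 + 3 * K * C + (ρ + 1) * (K ^ 2 * C₀ * C + K * C * C₀) +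
      (ρ + 1) * (K * C * C₀) * (1 + U)) * (l / J + J * η * l + 1) := by
    field_simp
    ring
  rw [e3]
  have p1 : 0 ≤ l / J := by positivity
  have p2 : 0 ≤ J * η * l := by positivity
  have p3 : η * l ≤ J * η * l := by
    have h := mul_le_mul_of_nonneg_right hJ1 (mul_nonneg hη hl.le)
    rw [one_mul] at h
    rw [mul_assoc]
    exact h
  have p4 : 0 ≤ K * C := by positivity
  have p5 : 0 ≤ (ρ + 1) * (K ^ 2 * C₀ * C + K * C * C₀) := by positivity
  have p6 : 0 ≤ (ρ + 1) * (K * C * C₀) * (1 + U) := by positivity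
  have q1 : 3 * J * (η * l) * (K * C) = 3 * K * C * (J * η * l) := by ring
  have q2 : (ρ + 1) * (K * C * C₀) + K * C * C₀ * (ρ + 1) * U =
      (ρ + 1) * (K * C * C₀) * (1 + U) * 1 := by ring
  have r1 : 3 * K * C * (J * η * l) ≤ 3 * K * C * (l / J + J * η * l + 1) :=
    mul_le_mul_of_nonneg_left (by linarith) (by positivity)
  have r2 : (ρ + 1) * (K ^ 2 * C₀ * C + K * C * C₀) * (l / J) ≤
      (ρ + 1) * (K ^ 2 * C₀ * C + K * C * C₀) * (l / J + J * η * l + 1) :=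
    mul_le_mul_of_nonneg_left (by linarith) p5
  have r3 : (ρ + 1) * (K * C * C₀) * (1 + U) * 1 ≤
      (ρ + 1) * (K * C * C₀) * (1 + U) * (l / J + J * η * l + 1) :=
    mul_le_mul_of_nonneg_left (by linarith) p6
  linarith

theorem ea_num (C C₀ C' η η' l : ℝ) (J : ℕ) (hη : 0 < η)
    (hC' : 1 ≤ C') (hJ1 : (1 : ℝ) ≤ J) (hJ2 : 8 * (C * C₀ + C₀) / η ≤ J)
    (hJ3 : (4 * C' / η) ^ 2 ≤ J) (hη'0 : 0 < η') (hη'2 : η' * (8 * C' * J ^ 2) ≤ η)
    (hl0 : 0 < l) (hl2 : 8 * C' * J / η ≤ l) (hl3 : 8 * (C * C₀) / η ≤ l) :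
    C * C₀ * (1 / l + 1 / J) + C' * ((J : ℝ) ^ (-(1 / 2) : ℝ) +
      (J * η' + 1 / l) * (J : ℝ) ^ (1 / 2 : ℝ)) + C₀ / J ≤ η := by
  have hC'0 : 0 < C' := by linarith
  have hJ0 : (0 : ℝ) < J := by linarith
  have hs : (J : ℝ) ^ (1 / 2 : ℝ) = Real.sqrt J := (Real.sqrt_eq_rpow _).symm
  have hs' : (J : ℝ) ^ (-(1 / 2) : ℝ) = (Real.sqrt J)⁻¹ := by
    rw [Real.rpow_neg hJ0.le, hs]
  have hs1 : 1 ≤ Real.sqrt J := Real.one_le_sqrt.2 hJ1
  have hs2 : Real.sqrt J ≤ J := by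
    calc Real.sqrt J = Real.sqrt J * 1 := (mul_one _).symm
      _ ≤ Real.sqrt J * Real.sqrt J := mul_le_mul_of_nonneg_left hs1 (Real.sqrt_nonneg _)
      _ = J := Real.mul_self_sqrt hJ0.le
  have hs3 : 4 * C' / η ≤ Real.sqrt J := Real.le_sqrt_of_sq_le hJ3
  have c1 : C' * (Real.sqrt J)⁻¹ ≤ η / 4 := by
    rw [← div_eq_mul_inv, div_le_iff₀ (by linarith)]
    rw [div_le_iff₀ hη] at hs3
    linarith
  have c2 : C' * (J * η' * Real.sqrt J) ≤ η / 8 := by
    have h1 : C' * (J * η' * Real.sqrt J) ≤ C' * (J * η' * J) :=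
      mul_le_mul_of_nonneg_left (mul_le_mul_of_nonneg_left hs2 (by positivity)) hC'0.le
    have h2 : C' * (J * η' * J) = η' * (8 * C' * J ^ 2) / 8 := by ring
    rw [h2] at h1
    linarith
  have c3 : C' * (1 / l * Real.sqrt J) ≤ η / 8 := by
    have h1 : C' * (1 / l * Real.sqrt J) ≤ C' * (1 / l * J) :=
      mul_le_mul_of_nonneg_left (mul_le_mul_of_nonneg_left hs2 (by positivity)) hC'0.le
    refine h1.trans ?_
    rw [div_le_iff₀ hη] at hl2
    have e3 : C' * (1 / l * J) = C' * J / l := by ring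
    rw [e3, div_le_iff₀ hl0]
    linarith
  have c4 : C * C₀ * (1 / l) ≤ η / 8 := by
    rw [div_le_iff₀ hη] at hl3
    rw [mul_one_div, div_le_iff₀ hl0]
    linarith
  have c5 : (C * C₀ + C₀) / J ≤ η / 8 := by
    rw [div_le_iff₀ hη] at hJ2
    rw [div_le_iff₀ hJ0]
    linarith
  rw [hs, hs']
  have e4 : C * C₀ * (1 / l + 1 / J) + C' * ((Real.sqrt J)⁻¹ + (J * η' + 1 / l) * Real.sqrt J) +
      C₀ / J = C * C₀ * (1 / l) + (C * C₀ + C₀) / J + C' * (Real.sqrt J)⁻¹ +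
        C' * (J * η' * Real.sqrt J) + C' * (1 / l * Real.sqrt J) := by
    ring
  rw [e4]
  linarith

theorem ea_main (K : Type) [Field K] [NumberField K] (C₀ η C U C' : ℝ) (hC₀ : 0 < C₀)
    (hη : 0 < η) (hC : 1 ≤ C) (hU0 : 0 ≤ U)
    (hU : ∀ X : Finset (PrI K), ∑ P ∈ X, Real.log (np P) / (np P - 1) ^ 2 ≤ U)
    (hEB : ∀ (M : ℝ) (β : ℂ), 2 ≤ M → ‖β‖ ≤ C₀ / Real.log M → ∀ x y : ℝ, x ≤ M → y ≤ x →
      (∀ R : Finset (PrI K), ‖Eb np (PM K M) R x β‖ ≤ C ∧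
        ‖Eb np (PM K M) R x β - Eb np (PM K M) ∅ x β‖ ≤
          C * ‖β‖ * ∑ P ∈ R, Real.log (np P) / (np P - 1)) ∧
      (1 ≤ y → ‖Eb np (PM K M) ∅ x β - Eb np (PM K M) ∅ y β‖ ≤
        C * ‖β‖ * (1 + Real.log (x / y))))
    (hEI : T_EI)
    (hGA : ∀ η : ℝ, 0 < η → ∃ M₀ : ℝ, 2 ≤ M₀ ∧ ∀ M x : ℝ, M₀ ≤ M → 1 ≤ x → x ≤ M →
      |GS np (PM K M) x - rho K * Real.log x| ≤ η * Real.log M)
    (hC' : 1 ≤ C')
    (hDE : ∀ (n : ℕ) (ξ : ℝ) (b : ℂ) (e : ℕ → ℂ), 1 ≤ n →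
      0 ≤ ξ → ‖b‖ ≤ max C₀ 1 → (∀ j : ℕ, j ≤ n → ‖e j‖ ≤
        max (max C (C * C₀)) (max (KK (rho K) C C₀ U) 1)) →
      (∀ i j : ℕ, i ≤ n → j ≤ n → ‖e i - e j‖ ≤
        max (max C (C * C₀)) (max (KK (rho K) C C₀ U) 1) * (|(i : ℝ) - j| / n + ξ)) →
      (∀ j : ℕ, j ≤ n →
        ‖(∑ i ∈ Finset.Icc 1 j, Complex.exp (-b * (i : ℂ) / n) * e (j - i)) - j‖ ≤
        max (max C (C * C₀)) (max (KK (rho K) C C₀ U) 1) * (1 + ξ * n)) →
      ∀ j : ℕ, j ≤ n → ‖e j - (1 + b * (j : ℂ) / n)‖ ≤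
        C' * ((n : ℝ) ^ (-(1 / 2) : ℝ) + ξ * (n : ℝ) ^ (1 / 2 : ℝ))) :
    ∃ M₀ : ℝ, 2 ≤ M₀ ∧ ∀ (M : ℝ) (β : ℂ), M₀ ≤ M → ‖β‖ ≤ C₀ / Real.log M →
      ∀ x : ℝ, 1 ≤ x → x ≤ M → ‖Eb np (PM K M) ∅ x β - (1 + β * Real.log x)‖ ≤ η := by
  have hρ : 0 < rho K := dedekindZeta_residue_pos K
  have hN : ∀ P : PrI K, 2 ≤ np P := Pool.Agent.H96.CV.two_le_np
  have hC'0 : 0 < C' := by linarith
  set Cm := max (max C (C * C₀)) (max (KK (rho K) C C₀ U) 1) with hCm
  have m1 : C ≤ Cm := (le_max_left _ _).trans (le_max_left _ _)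
  have m2 : C * C₀ ≤ Cm := (le_max_right _ _).trans (le_max_left _ _)
  have m3 : KK (rho K) C C₀ U ≤ Cm := (le_max_left _ _).trans (le_max_right _ _)
  have m4 : 1 ≤ Cm := (le_max_right _ _).trans (le_max_right _ _)
  -- the number of blocks
  obtain ⟨J, hJ⟩ := exists_nat_ge (max 1 (max (8 * (C * C₀ + C₀) / η) ((4 * C' / η) ^ 2)))
  have hJ1 : (1 : ℝ) ≤ J := (le_max_left _ _).trans hJ
  have hJ2 : 8 * (C * C₀ + C₀) / η ≤ J := (le_max_left _ _).trans ((le_max_right _ _).trans hJ)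
  have hJ3 : (4 * C' / η) ^ 2 ≤ J := (le_max_right _ _).trans ((le_max_right _ _).trans hJ)
  have hJn : 1 ≤ J := by exact_mod_cast hJ1
  have hJ0 : (0 : ℝ) < J := by linarith
  set η' := min 1 (η / (8 * C' * J ^ 2)) with hη'
  have hη'0 : 0 < η' := lt_min one_pos (by positivity)
  have hη'1 : η' ≤ 1 := min_le_left _ _
  have hη'2 : η' * (8 * C' * J ^ 2) ≤ η := by
    have h : η' ≤ η / (8 * C' * J ^ 2) := min_le_right _ _
    rwa [le_div_iff₀ (by positivity)] at h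
  obtain ⟨M₀, hM₀, hG⟩ := hGA η' hη'0
  refine ⟨max M₀ (Real.exp (max 1 (max (8 * C' * J / η) (8 * (C * C₀) / η)))),
    hM₀.trans (le_max_left _ _), ?_⟩
  intro M β hM hβ x hx1 hxM
  have hM2 : M₀ ≤ M := (le_max_left _ _).trans hM
  have hM3 : 2 ≤ M := hM₀.trans hM2
  have hM0 : 0 < M := by linarith
  set l := Real.log M with hl
  have hexp : Real.exp l = M := Real.exp_log hM0
  have hlb : max 1 (max (8 * C' * J / η) (8 * (C * C₀) / η)) ≤ l := by
    have h := Real.log_le_log (Real.exp_pos _) ((le_max_right _ _).trans hM)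
    rwa [Real.log_exp] at h
  have hl1 : 1 ≤ l := (le_max_left _ _).trans hlb
  have hl0 : 0 < l := by linarith
  have hl2 : 8 * C' * J / η ≤ l := (le_max_left _ _).trans ((le_max_right _ _).trans hlb)
  have hl3 : 8 * (C * C₀) / η ≤ l := (le_max_right _ _).trans ((le_max_right _ _).trans hlb)
  have hβ0 : 0 ≤ ‖β‖ := norm_nonneg β
  have hβl : ‖β‖ * l ≤ C₀ := by
    rw [le_div_iff₀ hl0] at hβ
    exact hβ
  have hE1 : ∀ x ≤ Real.exp l, ∀ R : Finset (PrI K), ‖Eb np (PM K M) R x β‖ ≤ C ∧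
      ‖Eb np (PM K M) R x β - Eb np (PM K M) ∅ x β‖ ≤
        C * ‖β‖ * ∑ P ∈ R, Real.log (np P) / (np P - 1) := by
    intro x hx R
    rw [hexp] at hx
    exact (hEB M β hM3 hβ x x hx le_rfl).1 R
  have hE3 : ∀ x y, x ≤ Real.exp l → y ≤ x → 1 ≤ y →
      ‖Eb np (PM K M) ∅ x β - Eb np (PM K M) ∅ y β‖ ≤ C * ‖β‖ * (1 + Real.log (x / y)) := by
    intro x y hx hyx hy
    rw [hexp] at hx
    exact (hEB M β hM3 hβ x y hx hyx).2 hy
  have hE3' : ∀ x y t, x ≤ Real.exp l → y ≤ x → 1 ≤ y → Real.log (x / y) ≤ t * l → 0 ≤ t →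
      ‖Eb np (PM K M) ∅ x β - Eb np (PM K M) ∅ y β‖ ≤ C * C₀ * (1 / l + t) := by
    intro x y t hx hyx hy ht ht0
    refine (hE3 x y hx hyx hy).trans ?_
    calc C * ‖β‖ * (1 + Real.log (x / y)) ≤ C * ‖β‖ * (1 + t * l) :=
          mul_le_mul_of_nonneg_left (by linarith) (by positivity)
      _ ≤ C * (C₀ / l) * (1 + t * l) :=
          mul_le_mul_of_nonneg_right (mul_le_mul_of_nonneg_left hβ (by linarith)) (by positivity)
      _ = C * C₀ * (1 / l + t) := by field_simp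
  set e : ℕ → ℂ := fun j => Eb np (PM K M) ∅ (Real.exp ((j : ℝ) * l / J)) β with he
  set ξ := J * η' + 1 / l with hξ
  have hξ0 : 0 ≤ ξ := by positivity
  have hyM : ∀ i : ℕ, i ≤ J → Real.exp ((i : ℝ) * l / J) ≤ Real.exp l := by
    intro i hi
    have : (i : ℝ) ≤ J := by exact_mod_cast hi
    refine Real.exp_le_exp.2 ?_
    rw [div_le_iff₀ hJ0]
    nlinarith
  have hy1 : ∀ i : ℕ, 1 ≤ Real.exp ((i : ℝ) * l / J) := fun i => Real.one_le_exp (by positivity)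
  have hdiff : ∀ i j : ℕ, j ≤ i → i ≤ J → ‖e i - e j‖ ≤ Cm * (|(i : ℝ) - j| / J + ξ) := by
    intro i j hji hi
    have hr : (j : ℝ) ≤ i := by exact_mod_cast hji
    have h := hE3' (Real.exp ((i : ℝ) * l / J)) (Real.exp ((j : ℝ) * l / J)) ((i - j) / J)
      (hyM i hi) (Real.exp_le_exp.2 (div_le_div_of_nonneg_right
        (mul_le_mul_of_nonneg_right hr hl0.le) hJ0.le)) (hy1 j) (by
          rw [← Real.exp_sub, Real.log_exp]
          refine le_of_eq ?_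
          ring) (div_nonneg (by linarith) hJ0.le)
    refine h.trans ?_
    rw [abs_of_nonneg (by linarith)]
    refine mul_le_mul m2 ?_ (by
      have : 0 ≤ ((i : ℝ) - j) / J := div_nonneg (by linarith) hJ0.le
      positivity) (by linarith)
    have : 0 ≤ J * η' := by positivity
    rw [hξ]
    linarith
  have main := hDE J ξ (β * l) e hJn hξ0 (by
      rw [norm_mul, Complex.norm_real, Real.norm_eq_abs, abs_of_pos hl0]
      exact hβl.trans (le_max_left _ _)) (fun j hj => ((hE1 _ (hyM j hj) ∅).1).trans m1)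
    (fun i j hi hj => by
      rcases le_total j i with h | h
      · exact hdiff i j h hi
      · rw [norm_sub_rev, abs_sub_comm]
        exact hdiff j i h hj) (fun j hj => by
      refine (ea_conv hN (PM K M) β l (rho K) η' C C₀ U J hl0 hJn hρ hη'0.le hη'1 hC hC₀ hU0 hβ
        hE1 hE3 (fun x => hEI (PrI K) np (PM K M) x β hN) (fun x hx hx' => by
          rw [hexp] at hx'
          exact hG M x hM2 hx hx') (hU _) j hj).trans ?_
      exact mul_le_mul_of_nonneg_right m3 (by positivity))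
  -- the general point
  have hx0 : 0 < x := by linarith
  set t := Real.log x * J / l with ht
  have hlx0 : 0 ≤ Real.log x := Real.log_nonneg hx1
  have ht0 : 0 ≤ t := by positivity
  have hlx : Real.log x ≤ l := Real.log_le_log hx0 hxM
  have htJ : t ≤ J := by
    rw [ht, div_le_iff₀ hl0, mul_comm]
    exact mul_le_mul_of_nonneg_left hlx hJ0.le
  set j := ⌊t⌋₊ with hj
  have hj1 : (j : ℝ) ≤ t := Nat.floor_le ht0
  have hj2 : t < j + 1 := Nat.lt_floor_add_one t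
  have hjJ : j ≤ J := by
    have : (j : ℝ) ≤ J := hj1.trans htJ
    exact_mod_cast this
  have ht' : Real.log x = t * l / J := by
    rw [ht]
    field_simp
  have hlo : (j : ℝ) * l / J ≤ Real.log x := by
    rw [ht']
    exact div_le_div_of_nonneg_right (mul_le_mul_of_nonneg_right hj1 hl0.le) hJ0.le
  have hhi : Real.log x - (j : ℝ) * l / J ≤ l / J := by
    rw [ht', ← sub_div, ← sub_mul]
    refine div_le_div_of_nonneg_right ?_ hJ0.le
    have h : (t - j) * l ≤ 1 * l := mul_le_mul_of_nonneg_right (by linarith) hl0.le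
    rwa [one_mul] at h
  have a1 : ‖Eb np (PM K M) ∅ x β - e j‖ ≤ C * C₀ * (1 / l + 1 / J) := by
    refine hE3' x _ (1 / J) (by rw [hexp]; exact hxM) ?_ (hy1 j) ?_ (by positivity)
    · calc Real.exp ((j : ℝ) * l / J) ≤ Real.exp (Real.log x) := Real.exp_le_exp.2 hlo
        _ = x := Real.exp_log hx0
    · rw [Real.log_div hx0.ne' (Real.exp_pos _).ne', Real.log_exp]
      refine hhi.trans (le_of_eq ?_)
      ring
  have a2 := main j hjJ
  have a3 : ‖(1 + (β * l) * (j : ℂ) / J) - (1 + β * Real.log x)‖ ≤ C₀ / J := by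
    have e1 : (1 + (β * l) * (j : ℂ) / J) - (1 + β * Real.log x) =
        -(β * ((Real.log x - (j : ℝ) * l / J : ℝ) : ℂ)) := by
      push_cast
      ring
    rw [e1, norm_neg, norm_mul, Complex.norm_real, Real.norm_eq_abs,
      abs_of_nonneg (by linarith)]
    calc ‖β‖ * (Real.log x - (j : ℝ) * l / J) ≤ C₀ / l * (l / J) :=
          mul_le_mul hβ hhi (by linarith) (by positivity)
      _ = C₀ / J := by field_simp
  have e2 : Eb np (PM K M) ∅ x β - (1 + β * Real.log x) = (Eb np (PM K M) ∅ x β - e j) +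
      (e j - (1 + (β * l) * (j : ℂ) / J)) +
      ((1 + (β * l) * (j : ℂ) / J) - (1 + β * Real.log x)) := by ring
  rw [e2]
  refine (norm_add_le _ _).trans ((add_le_add ((norm_add_le _ _).trans (add_le_add a1 a2))
    a3).trans ?_)
  exact ea_num C C₀ C' η η' l J hη hC' hJ1 hJ2 hJ3 hη'0 hη'2 hl0 hl2 hl3

end Pool.Agent.H6.CRZ

namespace Pool.Agent.H6.CRZ

open Pool.Agent.H65.CRZ

theorem pf_EA (h1 : T_EB) (h2 : T_EI) (h3 : T_GA) (h4 : T_DE) : T_EA := by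
  intro K _ _ C₀ η hC₀ hη
  obtain ⟨C, hC, hEB⟩ := h1 K C₀ hC₀
  obtain ⟨U, _, _, hU⟩ := Pool.Agent.H86.CV.pf_GU Pool.Agent.H86.CV.pf_DV K
  have hU0 : 0 ≤ U := by simpa using hU ∅
  obtain ⟨C', hC', hDE⟩ := h4 (max C₀ 1)
    (max (max C (C * C₀)) (max (KK (Pool.Agent.H37.CV.rho K) C C₀ U) 1)) (le_max_right _ _)
    ((le_max_right _ _).trans (le_max_right _ _))
  exact ea_main K C₀ η C U C' hC₀ hη hC hU0 hU hEB h2 (h3 K) hC' hDE

end Pool.Agent.H6.CRZ
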